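import Mathlib
import Pool.Agent.H.MP_cbd977_an.A

namespace Pool.Agent.Results.MP_cbd977_an.NotPSD

open Matrix Pool.Agent.H.MP_cbd977_an
open scoped ComplexOrder

def k : Matrix (Fin 3) (Fin 3) ℂ := !![20, 10, -9; 10, 20, 10; -9, 10, 20]
noncomputable def k' : Matrix (Fin 3) (Fin 3) ℂ :=
  !![300 / 580, -290 / 580, 280 / 580; -290 / 580, 319 / 580, -290 / 580;
    280 / 580, -290 / 580, 300 / 580]
def l : Matrix (Fin 3) (Fin 3) ℂ := !![5, 2, 0; 2, 5, 2; 0, 2, 5]
noncomputable def l' : Matrix (Fin 3) (Fin 3) ℂ :=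
  !![21 / 85, -10 / 85, 4 / 85; -10 / 85, 25 / 85, -10 / 85; 4 / 85, -10 / 85, 21 / 85]

lemma psd (M : Matrix (Fin 3) (Fin 3) ℂ) (a b c d e f : ℝ) (ha : 0 < a) (h2 : 0 < a * d - b ^ 2)
    (h3 : 0 ≤ f * (a * d - b ^ 2) - c ^ 2 * d - a * e ^ 2 + 2 * b * c * e)
    (hM : M = !![(a : ℂ), b, c; b, d, e; c, e, f]) : M.PosSemidef := hM ▸ psd3 a b c d e f ha h2 h3

lemma kk : k * k' = 1 := by
  ext i j
  fin_cases i <;> fin_cases j <;> simp [k, k', mul_apply, Fin.sum_univ_three] <;> norm_num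

lemma ll : l' * l = 1 := by
  ext i j
  fin_cases i <;> fin_cases j <;> simp [l, l', mul_apply, Fin.sum_univ_three] <;> norm_num

lemma k_pd : k.PosDef :=
  (psd k 20 10 (-9) 20 10 20 (by norm_num) (by norm_num) (by norm_num)
    (by simp [k])).posDef_iff_isUnit.2 (IsUnit.of_mul_eq_one _ kk)

lemma l_pd : l.PosDef :=
  (psd l 5 2 0 5 2 5 (by norm_num) (by norm_num) (by norm_num)
    (by simp [l])).posDef_iff_isUnit.2 (IsUnit.of_mul_eq_one_right _ ll)

lemma l'_pd : l'.PosDef := by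
  rw [← inv_eq_left_inv ll]
  exact l_pd.inv

lemma k_ne (x y : Fin 3) : k x y ≠ 0 := by
  fin_cases x <;> fin_cases y <;> simp [k]

lemma full {n : ℕ} (W : Fin 3 → Matrix (Fin n) (Fin n) ℂ) (h : (Pick k W).PosSemidef) :
    (Pick l W).PosSemidef := by
  have h1 := pick_inv k k' k_pd kk W h
  have h2 := pick_schur k' l' _ h1 (fun x y => by fin_cases x <;> fin_cases y <;> simp [k'])
    (psd _ (21 / 85 / (300 / 580)) (10 / 85 / (290 / 580)) (4 / 85 / (280 / 580))
      (25 / 85 / (319 / 580)) (10 / 85 / (290 / 580)) (21 / 85 / (300 / 580))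
      (by norm_num) (by norm_num) (by norm_num) (by
        ext i j
        fin_cases i <;> fin_cases j <;> simp [k', l'] <;> norm_num))
  simpa using pick_inv l' l l'_pd ll _ h2

lemma retr (S : Set (Fin 3)) (hS : S.Nonempty) (hS' : ¬ ∀ x, x ∈ S) :
    ∃ ρ : Fin 3 → Fin 3, (∀ x, ρ x ∈ S) ∧ (∀ x ∈ S, ρ x = x) ∧
      (Matrix.of fun x y => l x y / k (ρ x) (ρ y)).PosSemidef := by
  have hc : ∀ s : Fin 3, (Matrix.of fun x y => l x y / k s s).PosSemidef := fun s =>
    psd _ (5 / 20) (2 / 20) 0 (5 / 20) (2 / 20) (5 / 20) (by norm_num) (by norm_num) (by norm_num)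
      (by
        ext i j
        fin_cases s <;> fin_cases i <;> fin_cases j <;> simp [k, l])
  by_cases h0 : 0 ∈ S <;> by_cases h1 : 1 ∈ S <;> by_cases h2 : 2 ∈ S
  · exact absurd (fun x => by fin_cases x <;> assumption) hS'
  · refine ⟨![0, 1, 1], fun x => by fin_cases x <;> assumption,
      fun x hx => by fin_cases x <;> simp_all,
      psd _ (5 / 20) (2 / 10) 0 (5 / 20) (2 / 20) (5 / 20) (by norm_num) (by norm_num) (by norm_num)
        (by ext i j; fin_cases i <;> fin_cases j <;> simp [k, l])⟩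
  · refine ⟨![0, 0, 2], fun x => by fin_cases x <;> assumption,
      fun x hx => by fin_cases x <;> simp_all,
      psd _ (5 / 20) (2 / 20) 0 (5 / 20) (2 / -9) (5 / 20) (by norm_num) (by norm_num) (by norm_num)
        (by ext i j; fin_cases i <;> fin_cases j <;> simp [k, l])⟩
  · exact ⟨fun _ => 0, fun _ => h0, fun x hx => by fin_cases x <;> simp_all, hc 0⟩
  · refine ⟨![1, 1, 2], fun x => by fin_cases x <;> assumption,
      fun x hx => by fin_cases x <;> simp_all,
      psd _ (5 / 20) (2 / 20) 0 (5 / 20) (2 / 10) (5 / 20) (by norm_num) (by norm_num) (by norm_num)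
        (by ext i j; fin_cases i <;> fin_cases j <;> simp [k, l])⟩
  · exact ⟨fun _ => 1, fun _ => h1, fun x hx => by fin_cases x <;> simp_all, hc 1⟩
  · exact ⟨fun _ => 2, fun _ => h2, fun x hx => by fin_cases x <;> simp_all, hc 2⟩
  · obtain ⟨x, hx⟩ := hS
    fin_cases x <;> simp_all

lemma pp : PseudoPick k l := by
  intro n hn z W h
  have hs : ∀ i j, z i = z j → W i = W j := by
    intro i j e
    refine same (fun x => W (![i, j] x)) 20 (by norm_num) ?_
    have := pick_sub _ W h ![i, j]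
    have e2 : (fun x y => k (z (![i, j] x)) (z (![i, j] y))) = fun _ _ => ((20 : ℝ) : ℂ) := by
      have : k (z j) (z j) = 20 := by
        generalize z j = s
        fin_cases s <;> simp [k]
      funext x y
      fin_cases x <;> fin_cases y <;> simp [e, this]
    rwa [e2] at this
  by_cases hz : ∀ x, x ∈ Set.range z
  · choose π hπ using hz
    have := pick_sub _ W h π
    simp only [hπ] at this
    exact ⟨fun x => W (π x), contr _ _ (full _ this), fun i => hs _ _ (hπ _)⟩
  · obtain ⟨ρ, h1, h2, h3⟩ := retr (Set.range z) ⟨_, ⟨⟨0, hn⟩, rfl⟩⟩ hz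
    choose π hπ using h1
    have := pick_sub _ W h π
    simp only [hπ] at this
    exact ⟨fun x => W (π x), contr _ _ (pick_schur _ l _ this (fun x y => k_ne _ _) h3),
      fun i => hs _ _ ((hπ _).trans (h2 _ ⟨i, rfl⟩))⟩

lemma exists_space (n : ℕ) : HasSpace l n := by
  let V := EuclideanSpace ℂ (Fin n)
  let K : Matrix (Fin 3) (Fin 3) (V →L[ℂ] V) := l.map (algebraMap ℂ (V →L[ℂ] V))
  have : Fact K.PosSemidef := ⟨by
    open scoped MatrixOrder in
    obtain ⟨B, hB⟩ := CStarAlgebra.nonneg_iff_eq_star_mul_self.mp l_pd.posSemidef.nonneg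
    have : K = (B.map (algebraMap ℂ (V →L[ℂ] V)))ᴴ * B.map (algebraMap ℂ (V →L[ℂ] V)) := by
      rw [← conjTranspose_map _ (fun c => algebraMap_star_comm c), ← Matrix.map_mul,
        ← star_eq_conjTranspose, ← hB]
    rw [this]
    exact posSemidef_conjTranspose_mul_self _⟩
  refine ⟨RKHS.OfKernel K, inferInstance, inferInstance, inferInstance, inferInstance,
    fun x y v => ?_⟩
  rw [RKHS.OfKernel.kernel_ofKernel]
  simp [K, Algebra.algebraMap_eq_smul_one]

theorem result : ∃ k l : Fin 3 → Fin 3 → ℂ, PSD k ∧ PSD l ∧ (Matrix.of k).PosDef ∧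
    (Matrix.of l).PosDef ∧ (∀ z w, k z w ≠ 0) ∧ (∀ n, HasSpace l n) ∧ PseudoPick k l ∧
    ¬ PSD fun z w => l z w / k z w := by
  refine ⟨k, l, fun m z => k_pd.posSemidef.submatrix z, fun m z => l_pd.posSemidef.submatrix z,
    k_pd, l_pd, k_ne, exists_space, pp, fun h => ?_⟩
  have := (h 3 id).dotProduct_mulVec_nonneg ![2, -3, 2]
  simp [dotProduct, mulVec, Fin.sum_univ_three, k, l] at this
  norm_num [Complex.le_def] at this

end Pool.Agent.Results.MP_cbd977_an.NotPSD
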